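import Pool.Agent.H81.SPN.Clo
import Pool.Graph.R_seed8.Y666.SF.Full
import Pool.Graph.R_seed8.Y666.SP.Part

/-!
# Spines for a class of posets that is closed under finite unions and lexicographic sums

A filter `F` of a poset is separated from a filter `G` if some element of `F` is below all the
elements of `G`; dually for ideals.  A poset is end-finite if all families of pairwise
non-separated filters, and all families of pairwise non-separated ideals, are finite.

(1) Every poset of finite width has a spine.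
(2) Every end-finite poset has a spine.
(3) Posets of finite width are end-finite.
(4) Posets in which every element is incomparable with only finitely many elements are end-finite.
(5) Subposets and duals of end-finite posets are end-finite.
(6) A poset that is a union of finitely many end-finite subposets is end-finite.
(7) Lexicographic sums of end-finite posets along an end-finite index poset are end-finite.
(8) End-finite posets have no infinite antichain.
-/

set_option autoImplicit false

namespace Pool.Agent.Results.MP_6ec1b7_co.ClosureProperties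

/-- Every family of pairwise non-separated filters is finite, and every family of pairwise
non-separated ideals is finite. -/
def EndFinite (P : Type) [PartialOrder P] : Prop :=
  (∀ S : Set (Order.PFilter P),
    (∀ F ∈ S, ∀ G ∈ S, ¬ ∃ p ∈ F, ∀ q ∈ G, p < q) → S.Finite) ∧
  ∀ S : Set (Order.Ideal P),
    (∀ I ∈ S, ∀ J ∈ S, ¬ ∃ p ∈ J, ∀ q ∈ I, q < p) → S.Finite

/-- There are a chain and a partition into antichains all of which meet the chain. -/
def HasSpine (P : Type) [PartialOrder P] : Prop :=
  ∃ C : Set P, IsChain (· ≤ ·) C ∧ ∃ A : Set (Set P), Setoid.IsPartition A ∧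
    ∀ a ∈ A, IsAntichain (· ≤ ·) a ∧ (C ∩ a).Nonempty

/-- The width of `P` is at most `w`. -/
def WidthLE (P : Type) [PartialOrder P] (w : ℕ) : Prop :=
  ∀ s : Finset P, IsAntichain (· ≤ ·) (s : Set P) → s.card ≤ w

theorem tm_iff (P : Type) [PartialOrder P] : EndFinite P ↔ Pool.Agent.Y666.SF.Tm P :=
  ⟨fun h => ⟨Pool.Agent.Y666.SF.Y666.ff_of_pf h.1, Pool.Agent.Y666.SF.Y666.ffd_of_id h.2⟩,
    fun h => ⟨Pool.Agent.Y666.SF.Y666.pf_of_ff h.1, Pool.Agent.Y666.SF.Y666.id_of_ffd h.2⟩⟩

/-- See the head of the file. -/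
theorem result :
    (∀ (P : Type) [PartialOrder P] (w : ℕ), WidthLE P w → HasSpine P) ∧
    (∀ (P : Type) [PartialOrder P], EndFinite P → HasSpine P) ∧
    (∀ (P : Type) [PartialOrder P] (w : ℕ), WidthLE P w → EndFinite P) ∧
    (∀ (P : Type) [PartialOrder P], (∀ p : P, {x | ¬ x ≤ p ∧ ¬ p ≤ x}.Finite) → EndFinite P) ∧
    ((∀ (P Q : Type) [PartialOrder P] [PartialOrder Q], (Q ↪o P) → EndFinite P → EndFinite Q) ∧
      ∀ (P : Type) [PartialOrder P], EndFinite P → EndFinite Pᵒᵈ) ∧
    (∀ (P ι : Type) [PartialOrder P] [Finite ι] (s : ι → Set P), (⋃ i, s i) = Set.univ →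
      (∀ i, EndFinite (s i)) → EndFinite P) ∧
    (∀ (I : Type) [PartialOrder I] (P : I → Type) [∀ i, PartialOrder (P i)],
      EndFinite I → (∀ i, EndFinite (P i)) → EndFinite (Σₗ i, P i)) ∧
    ∀ (P : Type) [PartialOrder P], EndFinite P →
      ∀ s : Set P, IsAntichain (· ≤ ·) s → s.Finite := by
  have h3 : ∀ (P : Type) [PartialOrder P] (w : ℕ), WidthLE P w → EndFinite P :=
    fun P _ w hw => (tm_iff P).2 (Pool.Agent.Y666.SF.Y666.t_WID P w hw)
  have h2 : ∀ (P : Type) [PartialOrder P], EndFinite P → HasSpine P := fun P _ h =>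
    Pool.Agent.Y666.SP.part_of_spine (Pool.Agent.Y666.SF.spine_of_tm ((tm_iff P).1 h))
  refine ⟨fun P _ w hw => h2 P (h3 P w hw), h2, h3, ?_, ⟨?_, ?_⟩, ?_, ?_, ?_⟩
  · intro P _ h
    exact (tm_iff P).2 (Pool.Agent.H81.SPN.tm_of_incomp h)
  · intro P Q _ _ f h
    exact (tm_iff Q).2 (Pool.Agent.H81.SPN.tm_emb f ((tm_iff P).1 h))
  · intro P _ h
    exact (tm_iff _).2 (Pool.Agent.H81.SPN.tm_dual ((tm_iff P).1 h))
  · intro P ι _ _ s hs h
    refine (tm_iff P).2 (Pool.Agent.H81.SPN.tm_union s (fun p => ?_) fun i => (tm_iff _).1 (h i))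
    have : p ∈ ⋃ i, s i := by rw [hs]; exact Set.mem_univ p
    exact Set.mem_iUnion.1 this
  · intro I _ P _ hI h
    exact (tm_iff _).2 (Pool.Agent.H81.SPN.tm_lex' ((tm_iff I).1 hI) fun i => (tm_iff _).1 (h i))
  · intro P _ h s hs
    exact Pool.Agent.H81.SPN.fac_of_ff ((tm_iff P).1 h).1 s hs

end Pool.Agent.Results.MP_6ec1b7_co.ClosureProperties
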